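import Pool.Agent.Lib.MP_17a322_nt.VA.AV

/-!
Vojta's conjecture for projective bundles `P(E)` over varieties birational to an abelian variety:
definitions.

`A` is an abelian variety in `ℙ^N` (coordinates `x`), `V ⊆ A × ℙ^m` (coordinates `y` of `ℙ^m`) the closure of
the graph of a rational map, `E` a bundle on `V` in the trivial bundle with the coordinates `Z_1, ..., Z_n`.
-/

universe u

namespace UPE

open MvPolynomial Height
open Pool.Agent.Lib.MP_17a322_nt.VA

/-- Polynomials in the coordinates `y` of `ℙ^m` (`Sum.inl`) and `x` of `ℙ^N` (`Sum.inr`). -/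
abbrev Pm (K : Type u) [Field K] (N m : ℕ) := MvPolynomial (Fin (m + 1) ⊕ Fin (N + 1)) K

/-- `F` is homogeneous of degree `a` in `x` and homogeneous of degree `b` in `y`. -/
def Bi {K : Type u} [Field K] {N m : ℕ} (F : Pm K N m) (a b : ℕ) : Prop :=
  ∀ μ ∈ F.support, ∑ i, μ (Sum.inr i) = a ∧ ∑ l, μ (Sum.inl l) = b

/-- The value `F(x, y)`. -/
noncomputable def val {K : Type u} [Field K] {N m : ℕ} (F : Pm K N m) {L : Type u} [Field L]
    [Algebra K L] (x : Fin (N + 1) → L) (y : Fin (m + 1) → L) : L :=
  aeval (Sum.elim y x) F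

/-- The polynomial `F(x, p(x))`. -/
noncomputable def onG {K : Type u} [Field K] {N m : ℕ} (p : Fin (m + 1) → MvPolynomial (Fin (N + 1)) K)
    (F : Pm K N m) : MvPolynomial (Fin (N + 1)) K :=
  aeval (Sum.elim p X) F

/-- The closed subscheme `V` of `A × ℙ^m` with the equations `q(x, y) = 0` is the closure of the graph
of the rational map `[p_0 : ... : p_m]` from `A` to `ℙ^m` (the `p_l` are forms of degree `δ`): the `q_j`
vanish on the graph, and every bihomogeneous polynomial `F(x, y)` which vanishes on the graph lies, after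
multiplication by powers of the coordinates, in the ideal of the `q_j` and `A`. -/
structure Graph {K : Type u} [Field K] {N m : ℕ} (A : AV K N) {κ : ℕ} (q : Fin κ → Pm K N m)
    (p : Fin (m + 1) → MvPolynomial (Fin (N + 1)) K) (δ : ℕ) : Prop where
  hom : ∀ l, (p l).IsHomogeneous δ
  ne : ∃ l, p l ∉ A.I
  on : ∀ j, onG p (q j) ∈ A.I
  all : ∀ (F : Pm K N m) (a b : ℕ), Bi F a b → onG p F ∈ A.I →
    ∃ n : ℕ, ∀ i l, X (Sum.inr i) ^ n * X (Sum.inl l) ^ n * F ∈
      Ideal.span (Set.range q) ⊔
        A.I.map (rename (R := K) (σ := Fin (N + 1)) (Sum.inr : _ → Fin (m + 1) ⊕ Fin (N + 1)))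

/-- All the `m × m` minors of the matrix `(∂ q_j / ∂ y_l)` vanish at all points of `V` with
`e(x, y) = 0`: the closed subscheme `e = 0` of `V` is contained in the ramification locus of the
projection of `V` to `A`, which is the support of the canonical divisor if `V` is smooth. -/
def InRam {K : Type u} [Field K] {N m : ℕ} (A : AV K N) {κ τ : ℕ} (q : Fin κ → Pm K N m)
    (e : Fin τ → Pm K N m) : Prop :=
  ∀ (L : Type u) [Field L] [Algebra K L] (P : A.Pts L) (y : Fin (m + 1) → L), y ≠ 0 →
    (∀ j, val (q j) (A.x P) y = 0) → (∀ j, val (e j) (A.x P) y = 0) →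
    ∀ (ρ : Fin m → Fin κ) (γ : Fin m → Fin (m + 1)),
      (Matrix.of fun i j => val (pderiv (Sum.inl (γ j)) (q (ρ i))) (A.x P) y).det = 0

/-- `(P, y)` is a generic point of `V`: a point of `V` over an extension field of `K`, and the point
`P` of `A` satisfies no equations over `K` except those of `A`. -/
def Gen {K : Type u} [Field K] {N m : ℕ} (A : AV K N) {κ : ℕ} (q : Fin κ → Pm K N m) {L : Type u}
    [Field L] [Algebra K L] (P : A.Pts L) (y : Fin (m + 1) → L) : Prop :=
  (∀ (F : MvPolynomial (Fin (N + 1)) K) (d : ℕ), F.IsHomogeneous d → aeval (A.x P) F = 0 → F ∈ A.I) ∧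
    y ≠ 0 ∧ ∀ j, val (q j) (A.x P) y = 0

/-- The fibre at `(x, y)` of the bundle `E`: the kernel of the matrix `G(x, y)`. -/
noncomputable def Fib {K : Type u} [Field K] {N m g n : ℕ} (G : Fin g → Fin n → Pm K N m) {L : Type u} [Field L]
    [Algebra K L] (x : Fin (N + 1) → L) (y : Fin (m + 1) → L) : Submodule L (Fin n → L) :=
  LinearMap.ker (Matrix.mulVecLin (Matrix.of fun i l => val (G i l) x y))

/-- `E` has rank `r`: the dimension of the fibre at the generic points of `V`. -/
def Rk {K : Type u} [Field K] {N m g n : ℕ} (A : AV K N) {κ : ℕ} (q : Fin κ → Pm K N m)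
    (G : Fin g → Fin n → Pm K N m) (r : ℕ) : Prop :=
  ∀ (L : Type u) [Field L] [Algebra K L] (P : A.Pts L) (y : Fin (m + 1) → L), Gen A q P y →
    Module.finrank L (Fib G (A.x P) y) = r

/-- The linear forms `Λ j`, `j ∈ T`, are linearly independent on the fibre of `E` at the generic points
of `V`: no nontrivial linear combination of them vanishes on the fibre. -/
def Ind {K : Type u} [Field K] {N m g n s : ℕ} (A : AV K N) {κ : ℕ} (q : Fin κ → Pm K N m)
    (G : Fin g → Fin n → Pm K N m) (Λ : Fin s → Fin n → Pm K N m) (T : Finset (Fin s)) : Prop :=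
  ∀ (L : Type u) [Field L] [Algebra K L] (P : A.Pts L) (y : Fin (m + 1) → L), Gen A q P y →
    ∀ c : Fin s → L, (∀ Z ∈ Fib G (A.x P) y,
      ∑ j ∈ T, c j * ∑ l, val (Λ j l) (A.x P) y * Z l = 0) → ∀ j ∈ T, c j = 0

/-- The forms `F` of some bidegree in the coordinates of `A` and `Z_1, ..., Z_n` which over the algebraic
closure of the function field of `V` are products of linear forms in `Z_1, ..., Z_n`, none of which
vanishes on the fibre of `E`: the closed subset `F = 0` of `P(E)` is not all of `P(E)`, and over an open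
subset of `V` it is a union of relative hyperplanes (defined over finite covers). -/
def Exc {K : Type u} [Field K] {N m g n : ℕ} (A : AV K N) {κ : ℕ} (q : Fin κ → Pm K N m)
    (G : Fin g → Fin n → Pm K N m) (F : MvPolynomial (Fin (N + 1) ⊕ Fin n) K) : Prop :=
  (∃ a b : ℕ, ∀ μ ∈ F.support, ∑ i, μ (Sum.inl i) = a ∧ ∑ l, μ (Sum.inr l) = b) ∧
  ∀ (L : Type u) [Field L] [IsAlgClosed L] [Algebra K L] (P : A.Pts L) (y : Fin (m + 1) → L),
    Gen A q P y →
    ∃ (c : L) (k : ℕ) (w : Fin k → Fin n → L), c ≠ 0 ∧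
      (∀ i, ∃ Z ∈ Fib G (A.x P) y, ∑ l, w i l * Z l ≠ 0) ∧
      aeval (Sum.elim (fun i => (C (A.x P i) : MvPolynomial (Fin n) L)) X) F =
        C c * ∏ i, ∑ l, C (w i l) * X l

/-- The height of a subspace: the height of the vector of its Plücker coordinates. -/
noncomputable def hPl {K : Type u} [Field K] [NumberField K] {n : ℕ} (W : Submodule K (Fin n → K)) : ℝ :=
  logHeight fun s : Fin (Module.finrank K W) → Fin n =>
    (Matrix.of fun a b => (Module.finBasis K W a : Fin n → K) (s b)).det

/-- The local height at `v` of the point `(x, y, Z)` of `P(E)` with respect to the closed subscheme with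
the equations `∑ l, Λ_{k l}(x, y) Z_l = 0`, where the `Λ_{k l}` are bihomogeneous of bidegree `(a, b)`. -/
noncomputable def lamH {K : Type u} [Field K] {N m n η : ℕ} (a b : ℕ) (Λ : Fin η → Fin n → Pm K N m)
    (x : Fin (N + 1) → K) (y : Fin (m + 1) → K) (Z : Fin n → K) (v : AbsoluteValue K ℝ) : ℝ :=
  Real.log (⨆ l, v (Z l)) + a * Real.log (⨆ i, v (x i)) + b * Real.log (⨆ l, v (y l)) -
    Real.log (⨆ k, v (∑ l, val (Λ k l) x y * Z l))

/-- The local height at `v` of the point `(x, y)` of `V` with respect to the closed subscheme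
`f(x, y) = 0`, where the `f_j` are bihomogeneous of bidegree `(a, b)`. -/
noncomputable def lamV {K : Type u} [Field K] {N m σ : ℕ} (a b : ℕ) (f : Fin σ → Pm K N m)
    (x : Fin (N + 1) → K) (y : Fin (m + 1) → K) (v : AbsoluteValue K ℝ) : ℝ :=
  a * Real.log (⨆ i, v (x i)) + b * Real.log (⨆ l, v (y l)) - Real.log (⨆ j, v (val (f j) x y))

/-- The proximity of the point `(x, y, Z)` of `P(E)` to the divisor `D`: the sum over the infinite
places (with multiplicity) and the places in `S` of the local heights with respect to the relative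
hyperplanes `H_j` (those with `j ∈ Ji v` or `j ∈ Jf v`) and to the vertical closed subscheme `f = 0`. -/
noncomputable def prox {K : Type u} [Field K] [NumberField K] {N m n s η σ : ℕ} (al bl : ℕ)
    (Λ : Fin s → Fin η → Fin n → Pm K N m) (Ji : NumberField.InfinitePlace K → Finset (Fin s))
    (Jf : NumberField.FinitePlace K → Finset (Fin s)) (af bf : ℕ) (f : Fin σ → Pm K N m)
    (S : Finset (NumberField.FinitePlace K)) (x : Fin (N + 1) → K) (y : Fin (m + 1) → K)
    (Z : Fin n → K) : ℝ :=
  (∑ v : NumberField.InfinitePlace K,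
      (v.mult : ℝ) * ((∑ j ∈ Ji v, lamH al bl (Λ j) x y Z v.val) + lamV af bf f x y v.val)) +
    ∑ v ∈ S, ((∑ j ∈ Jf v, lamH al bl (Λ j) x y Z v.val) + lamV af bf f x y v.val)

/-- The height of the point `(x, y, Z)` of `P(E)` with respect to `π^* Y - r ξ + π^* det(E)^(-1)`, where
`Y` is the closed subscheme `e(x, y) = 0` of `V` (the `e_j` are bihomogeneous of bidegree `(a, b)`) and
`ξ` is the class of the hyperplanes `Z_l = 0`. For `Y = K_V` this is the canonical class of `P(E)`. -/
noncomputable def hK {K : Type u} [Field K] [NumberField K] {N m g n τ : ℕ} (a b r : ℕ)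
    (e : Fin τ → Pm K N m) (G : Fin g → Fin n → Pm K N m) (x : Fin (N + 1) → K)
    (y : Fin (m + 1) → K) (Z : Fin n → K) : ℝ :=
  (a * logHeight x + b * logHeight y - logHeight fun j => val (e j) x y) +
    hPl (Fib G x y) - r * logHeight Z

end UPE
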