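import Pool.Agent.Lib.MP_17a322_ntPE.Defs

/-!
The minors of the matrix of the vertical derivatives: equations of the canonical divisor of `V` if `V` is
smooth.
-/

set_option autoImplicit false

universe u

namespace UPE

open MvPolynomial
open Pool.Agent.Lib.MP_17a322_nt.VA

/-- The `m × m` minors of the matrix `(∂ q_j / ∂ y_l)`: rows `t.1`, columns `t.2`. -/
noncomputable def mnr {K : Type u} [Field K] {N m κ : ℕ} (q : Fin κ → Pm K N m)
    (t : (Fin m → Fin κ) × (Fin m → Fin (m + 1))) : Pm K N m :=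
  (Matrix.of fun i j => pderiv (Sum.inl (t.2 j)) (q (t.1 i))).det

/-- The values of the minors. -/
theorem val_mnr {K : Type u} [Field K] {N m κ : ℕ} (q : Fin κ → Pm K N m)
    (t : (Fin m → Fin κ) × (Fin m → Fin (m + 1))) {L : Type u} [Field L] [Algebra K L]
    (x : Fin (N + 1) → L) (y : Fin (m + 1) → L) :
    val (mnr q t) x y =
      (Matrix.of fun i j => val (pderiv (Sum.inl (t.2 j)) (q (t.1 i))) x y).det := by
  rw [val, mnr, AlgHom.map_det]
  rfl

/-- `Bi` as homogeneity for two weights. -/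
theorem bi_iff {K : Type u} [Field K] {N m : ℕ} (F : Pm K N m) (a b : ℕ) :
    Bi F a b ↔ IsWeightedHomogeneous (M := ℕ) (Sum.elim (fun _ => 0) fun _ => 1) F a ∧
      IsWeightedHomogeneous (M := ℕ) (Sum.elim (fun _ => 1) fun _ => 0) F b := by
  have h1 : ∀ μ : (Fin (m + 1) ⊕ Fin (N + 1)) →₀ ℕ,
      Finsupp.weight (Sum.elim (fun _ => 0) fun _ => 1 : Fin (m + 1) ⊕ Fin (N + 1) → ℕ) μ =
        ∑ i, μ (Sum.inr i) := by
    intro μ
    rw [Finsupp.weight_apply, Finsupp.sum_fintype _ _ (by simp)]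
    simp
  have h2 : ∀ μ : (Fin (m + 1) ⊕ Fin (N + 1)) →₀ ℕ,
      Finsupp.weight (Sum.elim (fun _ => 1) fun _ => 0 : Fin (m + 1) ⊕ Fin (N + 1) → ℕ) μ =
        ∑ l, μ (Sum.inl l) := by
    intro μ
    rw [Finsupp.weight_apply, Finsupp.sum_fintype _ _ (by simp)]
    simp
  constructor
  · intro h
    refine ⟨fun {μ} hμ => ?_, fun {μ} hμ => ?_⟩
    · rw [h1]; exact (h μ (mem_support_iff.2 hμ)).1
    · rw [h2]; exact (h μ (mem_support_iff.2 hμ)).2
  · rintro ⟨g1, g2⟩ μ hμ
    have hμ' := mem_support_iff.1 hμ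
    refine ⟨?_, ?_⟩
    · rw [← h1]; exact g1 hμ'
    · rw [← h2]; exact g2 hμ'

/-- A determinant of weighted homogeneous polynomials of one degree. -/
private theorem M_det {R : Type*} [CommRing R] {σ : Type*} {w : σ → ℕ} {m n : ℕ}
    (Q : Matrix (Fin m) (Fin m) (MvPolynomial σ R)) (hQ : ∀ i j, IsWeightedHomogeneous w (Q i j) n) :
    IsWeightedHomogeneous w Q.det (m * n) := by
  classical
  rw [Matrix.det_apply]
  refine (weightedHomogeneousSubmodule R w (m * n)).sum_mem fun g _ => ?_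
  have h1 : IsWeightedHomogeneous w (∏ i, Q (g i) i) (∑ _i : Fin m, n) :=
    IsWeightedHomogeneous.prod _ _ _ fun i _ => hQ _ _
  rw [Finset.sum_const, Finset.card_univ, Fintype.card_fin, smul_eq_mul] at h1
  rcases Int.units_eq_one_or (Equiv.Perm.sign g) with h | h
  · rw [h, one_smul]
    exact h1
  · rw [h, Units.neg_smul, one_smul]
    exact (weightedHomogeneousSubmodule R w (m * n)).neg_mem h1

/-- The degrees of a derivative with respect to a coordinate `y_l`. -/
theorem bi_pderiv {K : Type u} [Field K] {N m : ℕ} {F : Pm K N m} {a b : ℕ} (h : Bi F a b)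
    (l : Fin (m + 1)) : Bi (pderiv (Sum.inl l) F) a (b - 1) := by
  classical
  intro μ hμ
  have h1 : μ + Finsupp.single (Sum.inl l) 1 ∈ F.support := by
    rw [mem_support_iff] at hμ ⊢
    intro h0
    apply hμ
    rw [coeff_pderiv, h0, zero_mul]
  obtain ⟨g1, g2⟩ := h _ h1
  refine ⟨?_, ?_⟩
  · rw [← g1]
    exact Finset.sum_congr rfl fun i _ => by simp
  · rw [← g2]
    simp [Finsupp.single_apply, Finset.sum_add_distrib]

/-- The degrees of the minors. -/
theorem bi_mnr {K : Type u} [Field K] {N m κ : ℕ} (q : Fin κ → Pm K N m) {a b : ℕ}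
    (hq : ∀ j, Bi (q j) a b) (t : (Fin m → Fin κ) × (Fin m → Fin (m + 1))) :
    Bi (mnr q t) (m * a) (m * (b - 1)) := by
  have h := fun i j => (bi_iff _ _ _).1 (bi_pderiv (hq (t.1 i)) (t.2 j))
  exact (bi_iff _ _ _).2 ⟨M_det _ fun i j => (h i j).1, M_det _ fun i j => (h i j).2⟩

/-- The minors as the equations `e`. -/
theorem inRam_mnr {K : Type u} [Field K] {N m κ τ : ℕ} (A : AV K N) (q : Fin κ → Pm K N m)
    (e : Fin τ → Pm K N m) (he : ∀ t, ∃ j, e j = mnr q t) : InRam A q e := by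
  intro L _ _ P y _ _ he0 ρ γ
  obtain ⟨j, hj⟩ := he (ρ, γ)
  rw [← val_mnr q (ρ, γ), ← hj]
  exact he0 j

end UPE
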