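import Pool.Agent.Lib.MP_17a322_ntPE.Defs
import Pool.Agent.Lib.MP_17a322_nt.VA.G29

/-!
Values of bihomogeneous polynomials; the points of the closure of a graph.
-/

set_option autoImplicit false

universe u

namespace UPE

open MvPolynomial
open Pool.Agent.Lib.MP_17a322_nt.VA

open Pool.Agent.Lib.MP_17a322_nt.VA.G Pool.Agent.Lib.MP_17a322_nt.VN in
/-- A point over an extension field at which no form outside of `A.I` vanishes. -/
theorem exists_gen {K : Type u} [Field K] {N : ℕ} (A : AV K N) :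
    ∃ (L : Type u) (_ : Field L) (_ : Algebra K L) (P : A.Pts L),
      ∀ (f : MvPolynomial (Fin (N + 1)) K) (d : ℕ), f.IsHomogeneous d → aeval (A.x P) f = 0 → f ∈ A.I := by
  obtain ⟨M, iM, iKM, ikM, iT, y, hy⟩ := exists_generic A (AlgebraicClosure K)
  refine ⟨M, iM, iKM, y, fun f d hf h0 => ?_⟩
  have h1 : f ∈ loc K (A.x y) := (mem_loc_of_homog hf).2 h0
  have h2 : map (algebraMap K (AlgebraicClosure K)) f ∈ loc (AlgebraicClosure K) (A.x y) := map_mem_loc.2 h1
  rw [hy] at h2
  have h3 : f ∈ (A.I.map (map (σ := Fin (N + 1)) (algebraMap K (AlgebraicClosure K)))).comap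
      (map (σ := Fin (N + 1)) (algebraMap K (AlgebraicClosure K))) := h2
  rw [comap_map] at h3
  exact h3

/-- The degree of `F(x, p(x))`. -/
theorem onG_hom {K : Type u} [Field K] {N m : ℕ} {F : Pm K N m} {a b : ℕ} (hF : Bi F a b)
    {p : Fin (m + 1) → MvPolynomial (Fin (N + 1)) K} {δ : ℕ} (hp : ∀ l, (p l).IsHomogeneous δ) :
    (onG p F).IsHomogeneous (b * δ + a) := by
  unfold onG
  rw [aeval_def, eval₂_eq']
  refine IsHomogeneous.sum _ _ _ fun μ hμ => ?_
  obtain ⟨h2, h3⟩ := hF μ hμ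
  rw [Fintype.prod_sum_type]
  have e1 : (∏ l, Sum.elim p X (Sum.inl l) ^ μ (Sum.inl l) :
      MvPolynomial (Fin (N + 1)) K).IsHomogeneous (b * δ) := by
    rw [← h3, Finset.sum_mul]
    refine IsHomogeneous.prod _ _ _ fun l _ => ?_
    have h5 := (hp l).pow (μ (Sum.inl l))
    rw [mul_comm] at h5
    exact h5
  have e2 : (∏ i, Sum.elim p X (Sum.inr i) ^
      μ (Sum.inr i) : MvPolynomial (Fin (N + 1)) K).IsHomogeneous a := by
    rw [← h2]
    refine IsHomogeneous.prod _ _ _ fun i _ => ?_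
    have h5 := (isHomogeneous_X K i).pow (μ (Sum.inr i))
    rw [one_mul] at h5
    exact h5
  have e4 := (isHomogeneous_C (Fin (N + 1)) (coeff μ F)).mul (e1.mul e2)
  rw [zero_add] at e4
  exact e4

/-- The value at `(x, r y)`. -/
theorem val_smul {K : Type u} [Field K] {N m : ℕ} {F : Pm K N m} {a b : ℕ}
    (hF : Bi F a b) {L : Type u} [Field L] [Algebra K L] (x : Fin (N + 1) → L)
    (y : Fin (m + 1) → L) (r : L) :
    val F x (fun l => r * y l) = r ^ b * val F x y := by
  unfold val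
  rw [aeval_def, aeval_def, eval₂_eq', eval₂_eq', Finset.mul_sum]
  refine Finset.sum_congr rfl fun μ hμ => ?_
  obtain ⟨h2, h3⟩ := hF μ hμ
  rw [Fintype.prod_sum_type, Fintype.prod_sum_type]
  have h5 : ∏ l, Sum.elim (fun l => r * y l) x (Sum.inl l) ^ μ (Sum.inl l) =
      r ^ b * ∏ l, Sum.elim y x (Sum.inl l) ^ μ (Sum.inl l) := by
    rw [← h3, ← Finset.prod_pow_eq_pow_sum, ← Finset.prod_mul_distrib]
    refine Finset.prod_congr rfl fun l _ => ?_
    rw [Sum.elim_inl, Sum.elim_inl, mul_pow]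
  rw [h5]
  have h6 : ∏ z, Sum.elim (fun l => r * y l) x (Sum.inr z) ^ μ (Sum.inr z) =
      ∏ z, Sum.elim y x (Sum.inr z) ^ μ (Sum.inr z) :=
    Finset.prod_congr rfl fun z _ => by rw [Sum.elim_inr, Sum.elim_inr]
  rw [h6]
  ring

/-- The value of `F(x, p(x))`. -/
theorem onG_val {K : Type u} [Field K] {N m : ℕ} (p : Fin (m + 1) → MvPolynomial (Fin (N + 1)) K)
    (F : Pm K N m) {L : Type u} [Field L] [Algebra K L]
    (x : Fin (N + 1) → L) : aeval x (onG p F) = val F x fun l => aeval x (p l) := by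
  unfold onG val
  rw [← AlgHom.comp_apply, comp_aeval]
  refine congrArg (fun g => aeval g F) ?_
  funext z
  rcases z with l | i
  · simp
  · simp

/-- The bihomogeneous polynomial `y_l g(x)`. -/
private theorem P1_bih {K : Type u} [Field K] {N m δ : ℕ} (l : Fin (m + 1))
    {g : MvPolynomial (Fin (N + 1)) K} (hg : g.IsHomogeneous δ) :
    ∀ μ ∈ (X (Sum.inl l) * rename (Sum.inr : _ → Fin (m + 1) ⊕ Fin (N + 1)) g).support,
      ∑ i, μ (Sum.inr i) = δ ∧ ∑ l, μ (Sum.inl l) = 1 := by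
  classical
  intro μ hμ
  rw [support_X_mul, Finset.mem_map] at hμ
  obtain ⟨ν, hν, rfl⟩ := hμ
  rw [support_rename_of_injective Sum.inr_injective, Finset.mem_image] at hν
  obtain ⟨κ, hκ, rfl⟩ := hν
  have h1 : ∑ i, κ i = δ := by
    have h2 := hg (mem_support_iff.1 hκ)
    have h3 : Finsupp.weight (1 : Fin (N + 1) → ℕ) κ = ∑ i, κ i := by
      rw [← Finsupp.degree_eq_sum]
      exact (DFunLike.congr_fun (Finsupp.degree_eq_weight_one (σ := Fin (N + 1)) (R := ℕ)) κ).symm
    rw [← h3]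
    exact h2
  constructor
  · rw [← h1]
    refine Finset.sum_congr rfl fun i _ => ?_
    rw [addLeftEmbedding_apply, Finsupp.add_apply, Finsupp.mapDomain_apply Sum.inr_injective,
      Finsupp.single_eq_of_ne (by simp), zero_add]
  · rw [Finset.sum_eq_single l]
    · rw [addLeftEmbedding_apply, Finsupp.add_apply, Finsupp.single_eq_same,
        Finsupp.mapDomain_of_notMem_range _ _ (by simp), add_zero]
    · intro l' _ hl'
      rw [addLeftEmbedding_apply, Finsupp.add_apply, Finsupp.single_eq_of_ne (by simpa using hl'),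
        Finsupp.mapDomain_of_notMem_range _ _ (by simp), add_zero]
    · intro h
      exact absurd (Finset.mem_univ l) h

/-- A point `(x, y)` of the closure of the graph is `(x, p(x))` up to a factor of `y`, if some `p_l` does
not vanish at `x`. -/
theorem pt_graph {K : Type u} [Field K] {N m : ℕ} {A : AV K N} {κ : ℕ} {q : Fin κ → Pm K N m}
    {p : Fin (m + 1) → MvPolynomial (Fin (N + 1)) K} {δ : ℕ} (hG : Graph A q p δ)
    {L : Type u} [Field L] [Algebra K L] (P : A.Pts L) (y : Fin (m + 1) → L) (hy : y ≠ 0)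
    (hq : ∀ j, val (q j) (A.x P) y = 0) (l₀ : Fin (m + 1)) (hl₀ : aeval (A.x P) (p l₀) ≠ 0) :
    ∃ c : L, c ≠ 0 ∧ y = fun l => c * aeval (A.x P) (p l) := by
  obtain ⟨x, hx⟩ : ∃ x : Fin (N + 1) → L, x = A.x P := ⟨_, rfl⟩
  rw [← hx] at hq hl₀ ⊢
  have hxI : ∀ g ∈ A.I, aeval x g = 0 := by
    intro g hg
    rw [hx]
    exact A.x_isPt P g hg
  obtain ⟨i₀, hi₀⟩ : ∃ i, x i ≠ 0 := by
    rw [hx]
    exact A.exists_x_ne P
  obtain ⟨j₀, hj₀⟩ : ∃ j, y j ≠ 0 := Function.ne_iff.mp hy
  have hid : ∀ F ∈ Ideal.span (Set.range q) ⊔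
        A.I.map (rename (R := K) (σ := Fin (N + 1)) (Sum.inr : _ → Fin (m + 1) ⊕ Fin (N + 1))),
      aeval (Sum.elim y x) F = 0 := by
    have h1 : Ideal.span (Set.range q) ⊔
        A.I.map (rename (R := K) (σ := Fin (N + 1)) (Sum.inr : _ → Fin (m + 1) ⊕ Fin (N + 1))) ≤
        RingHom.ker (aeval (Sum.elim y x) :
          MvPolynomial (Fin (m + 1) ⊕ Fin (N + 1)) K →ₐ[K] L) := by
      refine sup_le (Ideal.span_le.2 ?_) (Ideal.map_le_iff_le_comap.2 ?_)
      · rintro _ ⟨j, rfl⟩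
        exact hq j
      · intro g hg
        show aeval (Sum.elim y x) (rename Sum.inr g) = 0
        rw [aeval_rename]
        exact hxI g hg
    exact fun F hF => h1 hF
  have hrel : ∀ l l', y l * aeval x (p l') = y l' * aeval x (p l) := by
    intro l l'
    obtain ⟨n, hn⟩ := hG.all (X (Sum.inl l) * rename Sum.inr (p l') - X (Sum.inl l') * rename Sum.inr (p l))
      δ 1 (by
        classical
        intro μ hμ
        rcases Finset.mem_union.1 (support_sub _ _ _ hμ) with h1 | h1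
        · exact P1_bih l (hG.hom l') μ h1
        · exact P1_bih l' (hG.hom l) μ h1) (by
        have h1 : onG p (X (Sum.inl l) * rename Sum.inr (p l') - X (Sum.inl l') * rename Sum.inr (p l)) = 0 := by
          unfold onG
          rw [map_sub, map_mul, map_mul, aeval_X, aeval_X, aeval_rename, aeval_rename]
          have h2 : (Sum.elim p X : Fin (m + 1) ⊕ Fin (N + 1) → MvPolynomial (Fin (N + 1)) K) ∘ Sum.inr = X := rfl
          rw [h2, aeval_X_left_apply, aeval_X_left_apply, Sum.elim_inl, Sum.elim_inl]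
          ring
        rw [h1]
        exact A.I.zero_mem)
    have h1 := hid _ (hn i₀ j₀)
    rw [map_mul, map_mul, map_pow, map_pow, aeval_X, aeval_X, map_sub, map_mul, map_mul, aeval_X, aeval_X,
      aeval_rename, aeval_rename] at h1
    have h2 : (Sum.elim y x) ∘ Sum.inr = x := rfl
    rw [h2, Sum.elim_inl, Sum.elim_inl, Sum.elim_inl, Sum.elim_inr] at h1
    have h3 := (mul_eq_zero.1 h1).resolve_left (mul_ne_zero (pow_ne_zero _ hi₀) (pow_ne_zero _ hj₀))
    exact sub_eq_zero.1 h3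
  have hyS : y = fun l => y l₀ / aeval x (p l₀) * aeval x (p l) := by
    funext l
    rw [div_mul_eq_mul_div, eq_div_iff hl₀]
    exact hrel l l₀
  refine ⟨y l₀ / aeval x (p l₀), ?_, hyS⟩
  intro h0
  apply hj₀
  rw [congrFun hyS j₀, h0, zero_mul]

/-- The point `(P, p(P))` is a generic point of the closure of the graph, if `P` is a generic point. -/
theorem gen_graph {K : Type u} [Field K] {N m : ℕ} {A : AV K N} {κ : ℕ} {q : Fin κ → Pm K N m}
    {p : Fin (m + 1) → MvPolynomial (Fin (N + 1)) K} {δ : ℕ} (hG : Graph A q p δ)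
    {L : Type u} [Field L] [Algebra K L] (P : A.Pts L)
    (hP : ∀ (f : MvPolynomial (Fin (N + 1)) K) (d : ℕ), f.IsHomogeneous d → aeval (A.x P) f = 0 → f ∈ A.I) :
    Gen A q P fun l => aeval (A.x P) (p l) := by
  refine ⟨hP, ?_, fun j => ?_⟩
  · intro h0
    obtain ⟨l, hl⟩ := hG.ne
    exact hl (hP _ δ (hG.hom l) (congrFun h0 l))
  · rw [← onG_val]
    exact A.x_isPt P _ (hG.on j)

end UPE
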