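import Pool.Agent.Lib.MP_17a322_ntPE.P1

/-!
The rows of a matrix of forms: a choice of independent rows.
-/

set_option autoImplicit false

universe u

namespace UPE

open MvPolynomial
open Pool.Agent.Lib.MP_17a322_nt.VA

/-- Bordered minors. -/
theorem bord {R : Type*} [CommRing R] {g g₀ n : ℕ} (G : Fin g → Fin n → R) (ρ : Fin g₀ → Fin g)
    (J : Fin g₀ → Fin n) (i : Fin g)
    (h : ∀ l, (Matrix.of fun a b : Fin (g₀ + 1) =>
      G (Fin.cons (α := fun _ => Fin g) i ρ a) (Fin.cons (α := fun _ => Fin n) l J b)).det = 0)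
    (Z : Fin n → R) (hZ : ∀ a, ∑ l, G (ρ a) l * Z l = 0) :
    (Matrix.of fun a b => G (ρ a) (J b)).det * ∑ l, G i l * Z l = 0 := by
  obtain ⟨cf, hcf⟩ : ∃ cf : Fin (g₀ + 1) → R, cf = fun a => (Matrix.of fun a' b' : Fin g₀ =>
      G (Fin.cons (α := fun _ => Fin g) i ρ (a.succAbove a')) (J b')).det := ⟨_, rfl⟩
  have h1 : ∀ l, ∑ a : Fin (g₀ + 1), (-1) ^ (a : ℕ) * G (Fin.cons (α := fun _ => Fin g) i ρ a) l *
      cf a = 0 := by
    intro l
    rw [← h l, Matrix.det_succ_column_zero, hcf]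
    rfl
  have h2 : ∑ a : Fin (g₀ + 1), (-1) ^ (a : ℕ) * cf a *
      ∑ l, G (Fin.cons (α := fun _ => Fin g) i ρ a) l * Z l = 0 := by
    have h3 : ∑ l, (∑ a : Fin (g₀ + 1), (-1) ^ (a : ℕ) * G (Fin.cons (α := fun _ => Fin g) i ρ a) l *
      cf a) * Z l = 0 := by
      refine Finset.sum_eq_zero fun l _ => ?_
      rw [h1, zero_mul]
    rw [← h3]
    simp only [Finset.mul_sum, Finset.sum_mul]
    rw [Finset.sum_comm]
    refine Finset.sum_congr rfl fun l _ => Finset.sum_congr rfl fun a _ => ?_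
    ring
  rw [Fin.sum_univ_succ] at h2
  have h4 : ∑ a : Fin g₀, (-1) ^ ((a.succ : Fin (g₀ + 1)) : ℕ) * cf a.succ *
      ∑ l, G (Fin.cons (α := fun _ => Fin g) i ρ a.succ) l * Z l = 0 := by
    refine Finset.sum_eq_zero fun a _ => ?_
    rw [Fin.cons_succ, hZ a, mul_zero]
  rw [h4, add_zero, Fin.cons_zero, Fin.val_zero, pow_zero, one_mul] at h2
  have h5 : cf 0 = (Matrix.of fun a b => G (ρ a) (J b)).det := by
    rw [hcf]
    rfl
  rw [← h5]
  exact h2

/-- Independent rows of a matrix which span all rows, and a nonzero minor. -/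
theorem rows {L : Type*} [Field L] {g n r : ℕ} (M : Fin g → Fin n → L)
    (hr : Module.finrank L (LinearMap.ker (Matrix.mulVecLin (Matrix.of M))) = r) :
    ∃ (g₀ : ℕ) (ρ : Fin g₀ → Fin g) (J : Fin g₀ → Fin n), g₀ + r = n ∧
      (Matrix.of fun a b => M (ρ a) (J b)).det ≠ 0 ∧
      ∀ i, M i ∈ Submodule.span L (Set.range fun a => M (ρ a)) := by
  classical
  obtain ⟨κ, a, ha, hsp, hli⟩ := exists_linearIndependent' L M
  have hfin : Finite κ := Finite.of_injective a ha
  obtain ⟨_⟩ := nonempty_fintype κ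
  have hrk : Module.finrank L (Submodule.span L (Set.range M)) + r = n := by
    have h1 := LinearMap.finrank_range_add_finrank_ker (Matrix.mulVecLin (Matrix.of M))
    rw [hr, Module.finrank_fintype_fun_eq_card, Fintype.card_fin] at h1
    have h2 : (Matrix.of M).rank = Module.finrank L (Submodule.span L (Set.range M)) := by
      rw [Matrix.rank_eq_finrank_span_row]
      rfl
    rw [← h2]
    exact h1
  have hcard : Fintype.card κ + r = n := by
    rw [← finrank_span_eq_card hli, hsp]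
    exact hrk
  obtain ⟨e⟩ : Nonempty (Fin (Fintype.card κ) ≃ κ) := ⟨(Fintype.equivFin κ).symm⟩
  have hli2 : LinearIndependent L fun b => M (a (e b)) := hli.comp e e.injective
  obtain ⟨J, hJ⟩ : ∃ J : Fin (Fintype.card κ) → Fin n,
      (Matrix.of fun b c => M (a (e b)) (J c)).det ≠ 0 := by
    obtain ⟨M', hM'⟩ : ∃ M' : Matrix (Fin (Fintype.card κ)) (Fin n) L,
      M' = Matrix.of fun b => M (a (e b)) := ⟨_, rfl⟩
    have hrk : M'.rank = Fintype.card κ := by
      have h1 : LinearIndependent L M'.row := by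
        rw [hM']
        exact hli2
      rw [h1.rank_matrix, Fintype.card_fin]
    rw [Matrix.rank_eq_finrank_span_cols] at hrk
    obtain ⟨κ', a', ha', hsp', hli'⟩ := exists_linearIndependent' L M'.col
    have hfin' : Finite κ' := Finite.of_injective a' ha'
    obtain ⟨_⟩ := nonempty_fintype κ'
    have hcard' : Fintype.card κ' = Fintype.card κ := by
      rw [← finrank_span_eq_card hli', hsp']
      exact hrk
    obtain ⟨e'⟩ : Nonempty (Fin (Fintype.card κ) ≃ κ') := ⟨(Fintype.equivFinOfCardEq hcard').symm⟩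
    refine ⟨fun b => a' (e' b), ?_⟩
    have h2 : LinearIndependent L (Matrix.of fun b c => M (a (e b)) (a' (e' c))).col := by
      have h3 := hli'.comp e' e'.injective
      have h4 : (Matrix.of fun b c => M (a (e b)) (a' (e' c))).col = (M'.col ∘ a') ∘ e' := by
        rw [hM']
        rfl
      rw [h4]
      exact h3
    exact ((Matrix.isUnit_iff_isUnit_det _).1
      (Matrix.linearIndependent_cols_iff_isUnit.1 h2)).ne_zero
  refine ⟨Fintype.card κ, fun b => a (e b), J, hcard, hJ, fun i => ?_⟩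
  have h1 : Set.range (fun b => M (a (e b))) = Set.range (M ∘ a) := by
    ext z
    constructor
    · rintro ⟨b, rfl⟩
      exact ⟨e b, rfl⟩
    · rintro ⟨b, rfl⟩
      refine ⟨e.symm b, ?_⟩
      show M (a (e (e.symm b))) = M (a b)
      rw [e.apply_symm_apply]
  rw [h1, hsp]
  exact Submodule.subset_span ⟨i, rfl⟩

/-- A row which is a combination of the others. -/
theorem bord_zero {L : Type*} [Field L] {g g₀ n : ℕ} (M : Fin g → Fin n → L) (ρ : Fin g₀ → Fin g)
    (J : Fin g₀ → Fin n) (i : Fin g) (l : Fin n)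
    (h : M i ∈ Submodule.span L (Set.range fun a => M (ρ a))) :
    (Matrix.of fun a b : Fin (g₀ + 1) =>
      M (Fin.cons (α := fun _ => Fin g) i ρ a) (Fin.cons (α := fun _ => Fin n) l J b)).det = 0 := by
  classical
  obtain ⟨c, hc⟩ := (Submodule.mem_span_range_iff_exists_fun L).1 h
  rw [← Matrix.exists_vecMul_eq_zero_iff]
  refine ⟨Fin.cons 1 fun a => -c a, ?_, ?_⟩
  · intro h0
    have h1 := congrFun h0 0
    rw [Fin.cons_zero] at h1
    exact one_ne_zero h1
  · funext b
    show ∑ a, (Fin.cons (α := fun _ => L) 1 fun a => -c a : Fin (g₀ + 1) → L) a *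
      M (Fin.cons (α := fun _ => Fin g) i ρ a) (Fin.cons (α := fun _ => Fin n) l J b) = 0
    rw [Fin.sum_univ_succ, Fin.cons_zero, Fin.cons_zero, one_mul, ← hc]
    rw [Finset.sum_apply, ← Finset.sum_add_distrib]
    refine Finset.sum_eq_zero fun a _ => ?_
    rw [Fin.cons_succ, Fin.cons_succ, Pi.smul_apply, smul_eq_mul]
    ring

/-- The degree of a determinant of forms. -/
theorem det_hom {R : Type*} [CommRing R] {σ : Type*} {k D : ℕ}
    (Q : Matrix (Fin k) (Fin k) (MvPolynomial σ R)) (hQ : ∀ i j, (Q i j).IsHomogeneous D) :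
    Q.det.IsHomogeneous (k * D) := by
  classical
  rw [← mem_homogeneousSubmodule, Matrix.det_apply]
  refine (homogeneousSubmodule σ R (k * D)).sum_mem fun s _ => ?_
  have h1 : (∏ i, Q (s i) i).IsHomogeneous (∑ _i : Fin k, D) :=
    IsHomogeneous.prod _ _ _ fun i _ => hQ _ _
  rw [Finset.sum_const, Finset.card_univ, Fintype.card_fin, smul_eq_mul] at h1
  rcases Int.units_eq_one_or (Equiv.Perm.sign s) with h | h
  · rw [h, one_smul]
    exact h1
  · rw [h, Units.neg_smul, one_smul]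
    exact (homogeneousSubmodule σ R (k * D)).neg_mem h1

theorem det_val {K : Type u} [Field K] {σ : Type*} {L : Type u} [Field L] [Algebra K L] (x : σ → L)
    {k : ℕ} (Q : Fin k → Fin k → MvPolynomial σ K) :
    aeval x (Matrix.of fun a b => Q a b).det = (Matrix.of fun a b => aeval x (Q a b)).det := by
  rw [AlgHom.map_det]
  rfl

/-- The choice of the rows of a matrix of forms. -/
theorem rows_poly {K : Type u} [Field K] {N : ℕ} (A : AV K N) {g n r D : ℕ}
    (G : Fin g → Fin n → MvPolynomial (Fin (N + 1)) K) (hGh : ∀ i l, (G i l).IsHomogeneous D)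
    {L : Type u} [Field L] [Algebra K L] (P₀ : A.Pts L)
    (hP₀ : ∀ (f : MvPolynomial (Fin (N + 1)) K) (d : ℕ), f.IsHomogeneous d →
      aeval (A.x P₀) f = 0 → f ∈ A.I)
    (hr : Module.finrank L (LinearMap.ker (Matrix.mulVecLin
      (Matrix.of fun i l => aeval (A.x P₀) (G i l)))) = r) :
    ∃ (g₀ : ℕ) (ρ : Fin g₀ → Fin g) (J : Fin g₀ → Fin n), g₀ + r = n ∧
      (Matrix.of fun a b => G (ρ a) (J b)).det.IsHomogeneous (g₀ * D) ∧
      (Matrix.of fun a b => G (ρ a) (J b)).det ∉ A.I ∧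
      ∀ (L' : Type u) [Field L'] [Algebra K L'] (P : A.Pts L'),
        aeval (A.x P) (Matrix.of fun a b => G (ρ a) (J b)).det ≠ 0 →
        ∀ Z : Fin n → L', (∀ a, ∑ l, aeval (A.x P) (G (ρ a) l) * Z l = 0) →
          ∀ i, ∑ l, aeval (A.x P) (G i l) * Z l = 0 := by
  obtain ⟨g₀, ρ, J, h1, h2, h3⟩ := rows (fun i l => aeval (A.x P₀) (G i l)) hr
  refine ⟨g₀, ρ, J, h1, det_hom _ fun a b => hGh _ _, ?_, ?_⟩
  · intro h4
    apply h2
    rw [← det_val]
    exact A.x_isPt P₀ _ h4
  · intro L' _ _ P h5 Z hZ i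
    rw [det_val] at h5
    have h6 := bord (fun i l => aeval (A.x P) (G i l)) ρ J i (fun l => by
      have h7 : (Matrix.of fun a b : Fin (g₀ + 1) => G (Fin.cons (α := fun _ => Fin g) i ρ a)
          (Fin.cons (α := fun _ => Fin n) l J b)).det ∈ A.I := by
        refine hP₀ _ ((g₀ + 1) * D) (det_hom _ fun a b => hGh _ _) ?_
        rw [det_val]
        exact bord_zero (fun i l => aeval (A.x P₀) (G i l)) ρ J i l (h3 i)
      have h8 := A.x_isPt P _ h7
      rw [det_val] at h8
      exact h8) Z hZ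
    exact (mul_eq_zero.1 h6).resolve_left h5

end UPE
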