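import Pool.Agent.Lib.MP_17a322_ntPE.P2
import Pool.Agent.Lib.MP_17a322_nt.SL.FDefs

/-!
Comparison with the bundles on the abelian variety.
-/

set_option autoImplicit false

universe u

namespace UPE

open MvPolynomial
open Pool.Agent.Lib.MP_17a322_nt.VA

theorem mem_Fib {K : Type u} [Field K] {N m g n : ℕ} {G : Fin g → Fin n → Pm K N m} {L : Type u}
    [Field L] [Algebra K L] {x : Fin (N + 1) → L} {y : Fin (m + 1) → L} {Z : Fin n → L} :
    Z ∈ Fib G x y ↔ ∀ i, ∑ l, val (G i l) x y * Z l = 0 := by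
  unfold Fib
  rw [LinearMap.mem_ker]
  constructor
  · intro h i
    exact congrFun h i
  · intro h
    funext i
    exact h i

/-- The fibre at a point of the graph. -/
theorem mem_Fib_graph {K : Type u} [Field K] {N m g n : ℕ} {G : Fin g → Fin n → Pm K N m} {ag bg : ℕ}
    (hG : ∀ i l, Bi (G i l) ag bg) {p : Fin (m + 1) → MvPolynomial (Fin (N + 1)) K} {L : Type u}
    [Field L] [Algebra K L] (x : Fin (N + 1) → L) {c : L} (hc : c ≠ 0) (Z : Fin n → L) :
    (Z ∈ Fib G x fun l => c * aeval x (p l)) ↔ ∀ i, ∑ l, aeval x (onG p (G i l)) * Z l = 0 := by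
  rw [mem_Fib]
  have h1 : ∀ i, ∑ l, val (G i l) x (fun l => c * aeval x (p l)) * Z l =
      c ^ bg * ∑ l, aeval x (onG p (G i l)) * Z l := by
    intro i
    rw [Finset.mul_sum]
    refine Finset.sum_congr rfl fun l _ => ?_
    rw [val_smul (hG i l), onG_val, mul_assoc]
  constructor
  · intro h i
    have h2 := h i
    rw [h1] at h2
    exact (mul_eq_zero.1 h2).resolve_left (pow_ne_zero _ hc)
  · intro h i
    rw [h1, h i, mul_zero]

/-- The data of the comparison. -/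
structure Rows {K : Type u} [Field K] {N m g n : ℕ} (A : AV K N)
    (p : Fin (m + 1) → MvPolynomial (Fin (N + 1)) K) (G : Fin g → Fin n → Pm K N m) {g₀ : ℕ}
    (ρ : Fin g₀ → Fin g) (J : Fin g₀ → Fin n) : Prop where
  notMem : (Matrix.of fun a b => onG p (G (ρ a) (J b))).det ∉ A.I
  hom : ∃ d, (Matrix.of fun a b => onG p (G (ρ a) (J b))).det.IsHomogeneous d
  fib : ∀ (L : Type u) [Field L] [Algebra K L] (P : A.Pts L),
    aeval (A.x P) (Matrix.of fun a b => onG p (G (ρ a) (J b))).det ≠ 0 →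
    ∀ Z : Fin n → L, (∀ a, ∑ l, aeval (A.x P) (onG p (G (ρ a) l)) * Z l = 0) →
      ∀ i, ∑ l, aeval (A.x P) (onG p (G i l)) * Z l = 0

theorem exists_rows {K : Type u} [Field K] {N m : ℕ} (A : AV K N) {κ : ℕ} {q : Fin κ → Pm K N m}
    {p : Fin (m + 1) → MvPolynomial (Fin (N + 1)) K} {δ : ℕ} (hp : Graph A q p δ) {g n r ag bg : ℕ}
    {G : Fin g → Fin n → Pm K N m} (hG : ∀ i l, Bi (G i l) ag bg) (hr : Rk A q G r) :
    ∃ (g₀ : ℕ) (ρ : Fin g₀ → Fin g) (J : Fin g₀ → Fin n), g₀ + r = n ∧ Rows A p G ρ J := by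
  obtain ⟨L, iL, iKL, P, hP⟩ := exists_gen A
  have h1 := hr L P _ (gen_graph hp P hP)
  obtain ⟨g₀, ρ, J, h2, h3, h4, h5⟩ := rows_poly A (r := r) (fun i l => onG p (G i l))
    (fun i l => onG_hom (hG i l) hp.hom) P hP (by
      have h6 : (Matrix.of fun i l => aeval (A.x P) (onG p (G i l))) =
          Matrix.of fun i l => val (G i l) (A.x P) fun l => aeval (A.x P) (p l) := by
        funext i l
        exact onG_val _ _ _
      rw [h6]
      exact h1)
  exact ⟨g₀, ρ, J, h2, h4, ⟨_, h3⟩, h5⟩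

/-- The fibre at a point at which the minor does not vanish. -/
theorem Rows.mem {K : Type u} [Field K] {N m g n : ℕ} {A : AV K N}
    {p : Fin (m + 1) → MvPolynomial (Fin (N + 1)) K} {G : Fin g → Fin n → Pm K N m} {g₀ : ℕ}
    {ρ : Fin g₀ → Fin g} {J : Fin g₀ → Fin n} (h : Rows A p G ρ J) {ag bg : ℕ}
    (hG : ∀ i l, Bi (G i l) ag bg) {L : Type u} [Field L] [Algebra K L] (P : A.Pts L)
    (hP : aeval (A.x P) (Matrix.of fun a b => onG p (G (ρ a) (J b))).det ≠ 0) {c : L} (hc : c ≠ 0)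
    (Z : Fin n → L) :
    (Z ∈ Fib G (A.x P) fun l => c * aeval (A.x P) (p l)) ↔
      ∀ a, ∑ l, aeval (A.x P) (onG p (G (ρ a) l)) * Z l = 0 := by
  rw [mem_Fib_graph hG _ hc]
  exact ⟨fun h1 a => h1 (ρ a), fun h1 => h.fib L P hP Z h1⟩

/-- The independent rows. -/
theorem Rows.li {K : Type u} [Field K] {N m g n : ℕ} {A : AV K N}
    {p : Fin (m + 1) → MvPolynomial (Fin (N + 1)) K} {G : Fin g → Fin n → Pm K N m} {g₀ : ℕ}
    {ρ : Fin g₀ → Fin g} {J : Fin g₀ → Fin n} {L : Type u} [Field L] [Algebra K L] (P : A.Pts L)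
    (hP : aeval (A.x P) (Matrix.of fun a b => onG p (G (ρ a) (J b))).det ≠ 0) :
    LinearIndependent L fun (a : Fin g₀) (l : Fin n) => aeval (A.x P) (onG p (G (ρ a) l)) := by
  rw [det_val] at hP
  have h1 := Matrix.linearIndependent_rows_of_det_ne_zero hP
  have h2 : (fun i => (Matrix.of fun a b => aeval (A.x P) (onG p (G (ρ a) (J b)))) i) =
      (LinearMap.funLeft L L J) ∘ fun (a : Fin g₀) (l : Fin n) => aeval (A.x P) (onG p (G (ρ a) l)) := by
    funext a b
    rfl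
  rw [h2] at h1
  exact LinearIndependent.of_comp _ h1

theorem ind_sl {K : Type u} [Field K] {N m : ℕ} {A : AV K N} {κ : ℕ} {q : Fin κ → Pm K N m}
    {p : Fin (m + 1) → MvPolynomial (Fin (N + 1)) K} {δ : ℕ} (hp : Graph A q p δ) {g n : ℕ}
    {G : Fin g → Fin n → Pm K N m} {g₀ : ℕ}
    {ρ : Fin g₀ → Fin g} {J : Fin g₀ → Fin n} (hR : Rows A p G ρ J) {s : ℕ}
    {Λ : Fin s → Fin n → Pm K N m} {T : Finset (Fin s)} (hT : Ind A q G Λ T) :
    Pool.Agent.Lib.MP_17a322_nt.SL.Ind A (fun a l => onG p (G (ρ a) l)) (fun j l => onG p (Λ j l)) T := by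
  classical
  intro L _ _ P hP
  have hm : aeval (A.x P) (Matrix.of fun a b => onG p (G (ρ a) (J b))).det ≠ 0 := by
    intro h0
    obtain ⟨d, hd⟩ := hR.hom
    exact hR.notMem (hP _ d hd h0)
  rw [Fintype.linearIndependent_iff]
  intro u hu
  have hu' : ∀ l, ∑ a, u (Sum.inl a) * aeval (A.x P) (onG p (G (ρ a) l)) +
      ∑ j : T, u (Sum.inr j) * aeval (A.x P) (onG p (Λ j l)) = 0 := by
    intro l
    have h1 := congrFun hu l
    rw [Finset.sum_apply, Fintype.sum_sum_type] at h1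
    exact h1
  obtain ⟨c, hc⟩ : ∃ c : Fin s → L, ∀ j : T, c j = u (Sum.inr j) :=
    ⟨fun j => if h : j ∈ T then u (Sum.inr ⟨j, h⟩) else 0, fun j => dif_pos j.2⟩
  have h1 := hT L P _ (gen_graph hp P hP) c (fun Z hZ => by
    have hZ' : ∀ a, ∑ l, aeval (A.x P) (onG p (G (ρ a) l)) * Z l = 0 := by
      intro a
      have h2 := mem_Fib.1 hZ (ρ a)
      rw [← h2]
      refine Finset.sum_congr rfl fun l _ => ?_
      rw [onG_val]
    have h3 : ∑ l, (∑ a, u (Sum.inl a) * aeval (A.x P) (onG p (G (ρ a) l)) +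
      ∑ j : T, u (Sum.inr j) * aeval (A.x P) (onG p (Λ j l))) * Z l = 0 :=
      Finset.sum_eq_zero fun l _ => by rw [hu' l, zero_mul]
    have h4 : ∑ l, (∑ a, u (Sum.inl a) * aeval (A.x P) (onG p (G (ρ a) l))) * Z l = 0 := by
      have h5 : ∑ a, u (Sum.inl a) * ∑ l, aeval (A.x P) (onG p (G (ρ a) l)) * Z l = 0 :=
        Finset.sum_eq_zero fun a _ => by rw [hZ' a, mul_zero]
      rw [← h5]
      simp only [Finset.mul_sum, Finset.sum_mul]
      rw [Finset.sum_comm]
      refine Finset.sum_congr rfl fun a _ => Finset.sum_congr rfl fun l _ => ?_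
      ring
    have h6 : ∑ l, (∑ j : T, u (Sum.inr j) * aeval (A.x P) (onG p (Λ j l))) * Z l = 0 := by
      simp only [add_mul, Finset.sum_add_distrib] at h3
      rw [h4, zero_add] at h3
      exact h3
    rw [← Finset.sum_coe_sort T]
    rw [← h6]
    simp only [Finset.mul_sum, Finset.sum_mul]
    rw [Finset.sum_comm]
    refine Finset.sum_congr rfl fun l _ => Finset.sum_congr rfl fun j _ => ?_
    rw [hc, onG_val]
    ring)
  have h2 : ∀ j : T, u (Sum.inr j) = 0 := fun j => by rw [← hc]; exact h1 j j.2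
  have h3 : ∀ a, u (Sum.inl a) = 0 := by
    have h4 := (Fintype.linearIndependent_iff.1 (Rows.li P hm)) (fun a => u (Sum.inl a)) (by
      funext l
      rw [Finset.sum_apply]
      have h5 := hu' l
      have h6 : ∑ j : T, u (Sum.inr j) * aeval (A.x P) (onG p (Λ j l)) = 0 :=
        Finset.sum_eq_zero fun j _ => by rw [h2 j, zero_mul]
      rw [h6, add_zero] at h5
      exact h5)
    exact h4
  rintro (a | j)
  · exact h3 a
  · exact h2 j

/-- The value of a form at the generic point. -/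
private theorem P3_C {K : Type u} [Field K] {N n : ℕ} {L : Type u} [Field L] [Algebra K L]
    (x : Fin (N + 1) → L) (H : MvPolynomial (Fin (N + 1)) K) :
    aeval (Sum.elim (fun i => (C (x i) : MvPolynomial (Fin n) L)) X)
      (rename (Sum.inl : Fin (N + 1) → Fin (N + 1) ⊕ Fin n) H) = C (aeval x H) := by
  rw [aeval_rename]
  have h1 := comp_aeval_apply x (IsScalarTower.toAlgHom K L (MvPolynomial (Fin n) L)) H
  exact h1.symm

theorem exc_sl {K : Type u} [Field K] {N m : ℕ} {A : AV K N} {κ : ℕ} {q : Fin κ → Pm K N m}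
    {p : Fin (m + 1) → MvPolynomial (Fin (N + 1)) K} {δ : ℕ} (hp : Graph A q p δ) {g n ag bg : ℕ}
    {G : Fin g → Fin n → Pm K N m} (hG : ∀ i l, Bi (G i l) ag bg) {g₀ : ℕ}
    {ρ : Fin g₀ → Fin g} {J : Fin g₀ → Fin n} (hR : Rows A p G ρ J)
    {F : MvPolynomial (Fin (N + 1) ⊕ Fin n) K}
    (hF : Pool.Agent.Lib.MP_17a322_nt.SL.Exc A (fun a l => onG p (G (ρ a) l)) F)
    {H : MvPolynomial (Fin (N + 1)) K} {d : ℕ} (hH : H.IsHomogeneous d) (hHI : H ∉ A.I) :
    Exc A q G (F * rename Sum.inl H) := by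
  classical
  obtain ⟨⟨a, b, hab⟩, hF2⟩ := hF
  constructor
  · refine ⟨a + d, b, fun μ hμ => ?_⟩
    obtain ⟨μ₁, hμ₁, μ₂, hμ₂, rfl⟩ := Finset.mem_add.1 (support_mul _ _ hμ)
    rw [support_rename_of_injective Sum.inl_injective, Finset.mem_image] at hμ₂
    obtain ⟨ν, hν, rfl⟩ := hμ₂
    have h1 : ∑ i, ν i = d := by
      have h2 := hH (mem_support_iff.1 hν)
      have h3 : Finsupp.weight (1 : Fin (N + 1) → ℕ) ν = ∑ i, ν i := by
        rw [← Finsupp.degree_eq_sum]
        exact (DFunLike.congr_fun (Finsupp.degree_eq_weight_one (σ := Fin (N + 1)) (R := ℕ)) ν).symm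
      rw [← h3]
      exact h2
    constructor
    · simp only [Finsupp.add_apply, Finset.sum_add_distrib]
      rw [(hab μ₁ hμ₁).1, ← h1]
      congr 1
      refine Finset.sum_congr rfl fun i _ => ?_
      rw [Finsupp.mapDomain_apply Sum.inl_injective]
    · simp only [Finsupp.add_apply, Finset.sum_add_distrib]
      rw [(hab μ₁ hμ₁).2]
      have h4 : ∑ l, (Finsupp.mapDomain Sum.inl ν : Fin (N + 1) ⊕ Fin n →₀ ℕ) (Sum.inr l) = 0 :=
        Finset.sum_eq_zero fun l _ => Finsupp.mapDomain_of_notMem_range _ _ (by simp)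
      rw [h4, add_zero]
  · intro L _ _ _ P y hP
    obtain ⟨hP1, hy, hq⟩ := hP
    obtain ⟨c, k, w, hc, hw, hFw⟩ := hF2 L P hP1
    have hm : aeval (A.x P) (Matrix.of fun a b => onG p (G (ρ a) (J b))).det ≠ 0 := by
      intro h0
      obtain ⟨d, hd⟩ := hR.hom
      exact hR.notMem (hP1 _ d hd h0)
    obtain ⟨l₀, hl₀⟩ := hp.ne
    obtain ⟨r, hr, hyr⟩ := pt_graph hp P y hy hq l₀ (fun h0 => hl₀ (hP1 _ δ (hp.hom l₀) h0))
    have hH0 : aeval (A.x P) H ≠ 0 := fun h0 => hHI (hP1 _ d hH h0)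
    refine ⟨c * aeval (A.x P) H, k, w, mul_ne_zero hc hH0, fun i => ?_, ?_⟩
    · obtain ⟨Z, hZ, hne⟩ := hw i
      refine ⟨Z, ?_, hne⟩
      rw [hyr, hR.mem hG P hm hr]
      exact hZ
    · rw [map_mul, hFw, P3_C, C_mul]
      ring

end UPE
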