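import Pool.Agent.Lib.MP_17a322_ntPE.P3

/-!
Comparison of the local heights.
-/

set_option autoImplicit false

universe u

namespace UPE

open MvPolynomial
open Pool.Agent.Lib.MP_17a322_nt.VA

/-- A form of degree `δ` is bounded by `|x|^δ`. -/
theorem form_le {K : Type u} [Field K] {N δ : ℕ} {F : MvPolynomial (Fin (N + 1)) K}
    (hF : F.IsHomogeneous δ) (v : AbsoluteValue K ℝ) :
    ∃ B : ℝ, 1 ≤ B ∧ ∀ x : Fin (N + 1) → K, v (aeval x F) ≤ B * (⨆ i, v (x i)) ^ δ := by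
  classical
  refine ⟨1 + ∑ μ ∈ F.support, v (coeff μ F), ?_, fun x => ?_⟩
  · have h1 : 0 ≤ ∑ μ ∈ F.support, v (coeff μ F) := Finset.sum_nonneg fun μ _ => v.nonneg _
    linarith
  · have h0 : 0 ≤ ⨆ i, v (x i) := Real.iSup_nonneg fun i => v.nonneg _
    have h2 : v (aeval x F) ≤ ∑ μ ∈ F.support, v (coeff μ F) * (⨆ i, v (x i)) ^ δ := by
      rw [aeval_def, eval₂_eq']
      refine (v.sum_le _ _).trans (Finset.sum_le_sum fun μ hμ => ?_)
      have h3 : ∑ i, μ i = δ := by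
        have h4 := hF (mem_support_iff.1 hμ)
        have h5 : Finsupp.weight (1 : Fin (N + 1) → ℕ) μ = ∑ i, μ i := by
          rw [← Finsupp.degree_eq_sum]
          exact (DFunLike.congr_fun (Finsupp.degree_eq_weight_one (σ := Fin (N + 1)) (R := ℕ)) μ).symm
        rw [← h5]
        exact h4
      rw [v.map_mul, map_prod]
      refine mul_le_mul_of_nonneg_left ?_ (v.nonneg _)
      rw [← h3, ← Finset.prod_pow_eq_pow_sum]
      refine Finset.prod_le_prod (fun i _ => v.nonneg _) fun i _ => ?_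
      rw [map_pow]
      exact pow_le_pow_left₀ (v.nonneg _) (le_ciSup (f := fun i => v (x i)) (Set.finite_range _).bddAbove i) _
    rw [← Finset.sum_mul] at h2
    have h6 : 0 ≤ (⨆ i, v (x i)) ^ δ := pow_nonneg h0 _
    nlinarith [h2, h6]

/-- The forms `p_l` at a place. -/
theorem forms_le {K : Type u} [Field K] {N m δ : ℕ} {p : Fin (m + 1) → MvPolynomial (Fin (N + 1)) K}
    (hp : ∀ l, (p l).IsHomogeneous δ) (v : AbsoluteValue K ℝ) :
    ∃ B : ℝ, 0 ≤ B ∧ ∀ x : Fin (N + 1) → K, ∀ l₀, aeval x (p l₀) ≠ 0 → x ≠ 0 →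
      Real.log (⨆ l, v (aeval x (p l))) ≤ B + δ * Real.log (⨆ i, v (x i)) := by
  choose B hB h using fun l => form_le (hp l) v
  have hB0 : ∀ l, B l ≤ ∑ l, B l := fun l =>
    Finset.single_le_sum (fun l _ => zero_le_one.trans (hB l)) (Finset.mem_univ l)
  have hB1 : 1 ≤ ∑ l, B l := (hB 0).trans (hB0 0)
  refine ⟨Real.log (∑ l, B l), Real.log_nonneg hB1, fun x l₀ hl₀ hx => ?_⟩
  obtain ⟨i₀, hi₀⟩ := Function.ne_iff.mp hx
  have hx0 : 0 < ⨆ i, v (x i) := lt_of_lt_of_le (v.pos hi₀)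
    (le_ciSup (f := fun i => v (x i)) (Set.finite_range _).bddAbove i₀)
  have hp0 : 0 < ⨆ l, v (aeval x (p l)) := lt_of_lt_of_le (v.pos hl₀)
    (le_ciSup (f := fun l => v (aeval x (p l))) (Set.finite_range _).bddAbove l₀)
  have h1 : (⨆ l, v (aeval x (p l))) ≤ (∑ l, B l) * (⨆ i, v (x i)) ^ δ :=
    ciSup_le fun l => (h l x).trans (mul_le_mul_of_nonneg_right (hB0 l) (pow_nonneg hx0.le _))
  have h2 := Real.log_le_log hp0 h1
  rw [Real.log_mul (by linarith) (pow_pos hx0 _).ne', Real.log_pow] at h2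
  exact h2

/-- The local height with respect to a relative hyperplane. -/
theorem lamH_le {K : Type u} [Field K] {N m n : ℕ} (A : AV K N)
    {p : Fin (m + 1) → MvPolynomial (Fin (N + 1)) K} {δ : ℕ} (v : AbsoluteValue K ℝ) {B : ℝ}
    (hB : ∀ x : Fin (N + 1) → K, ∀ l₀, aeval x (p l₀) ≠ 0 → x ≠ 0 →
      Real.log (⨆ l, v (aeval x (p l))) ≤ B + δ * Real.log (⨆ i, v (x i)))
    {a b η : ℕ} {Λ : Fin η → Fin n → Pm K N m} (k : Fin η) (hΛ : ∀ l, Bi (Λ k l) a b) (P : A.Pts K)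
    (l₀ : Fin (m + 1)) (hl₀ : aeval (A.x P) (p l₀) ≠ 0) (c : K) (hc : c ≠ 0) (Z : Fin n → K)
    (hne : (∑ l, aeval (A.x P) (onG p (Λ k l)) * Z l) ≠ 0) :
    (∑ l, val (Λ k l) (A.x P) (fun l => c * aeval (A.x P) (p l)) * Z l) ≠ 0 ∧
    lamH a b Λ (A.x P) (fun l => c * aeval (A.x P) (p l)) Z v ≤
      Pool.Agent.Lib.MP_17a322_nt.SL.lam A v (b * δ + a) (fun l => onG p (Λ k l)) P Z + b * B := by
  unfold lamH Pool.Agent.Lib.MP_17a322_nt.SL.lam
  have hx : A.x P ≠ 0 := by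
    intro h0
    obtain ⟨i, hi⟩ := A.exists_x_ne P
    exact hi (congrFun h0 i)
  have h1 := hB (A.x P) l₀ hl₀ hx
  have h2 : ∑ l, val (Λ k l) (A.x P) (fun l => c * aeval (A.x P) (p l)) * Z l =
      c ^ b * ∑ l, aeval (A.x P) (onG p (Λ k l)) * Z l := by
    rw [Finset.mul_sum]
    refine Finset.sum_congr rfl fun l _ => ?_
    rw [val_smul (hΛ l), onG_val, mul_assoc]
  have h3 : (⨆ l, v (c * aeval (A.x P) (p l))) = v c * ⨆ l, v (aeval (A.x P) (p l)) := by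
    rw [Real.mul_iSup_of_nonneg (v.nonneg _)]
    refine iSup_congr fun l => ?_
    rw [v.map_mul]
  have hp0 : 0 < ⨆ l, v (aeval (A.x P) (p l)) := lt_of_lt_of_le (v.pos hl₀)
    (le_ciSup (f := fun l => v (aeval (A.x P) (p l))) (Set.finite_range _).bddAbove l₀)
  have hc0 : 0 < v c := v.pos hc
  have h5 : (∑ l, val (Λ k l) (A.x P) (fun l => c * aeval (A.x P) (p l)) * Z l) ≠ 0 := by
    rw [h2]
    exact mul_ne_zero (pow_ne_zero _ hc) hne
  refine ⟨h5, ?_⟩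
  have h6 := Real.log_le_log (v.pos h5) (le_ciSup (f := fun k => v (∑ l, val (Λ k l) (A.x P)
    (fun l => c * aeval (A.x P) (p l)) * Z l)) (Set.finite_range _).bddAbove k)
  rw [h2, v.map_mul, v.map_pow, Real.log_mul (pow_pos hc0 _).ne' (v.pos hne).ne',
    Real.log_pow] at h6
  rw [h3, Real.log_mul hc0.ne' hp0.ne']
  have h4 : (b : ℝ) * Real.log (⨆ l, v (aeval (A.x P) (p l))) ≤
      b * (B + δ * Real.log (⨆ i, v (A.x P i))) := mul_le_mul_of_nonneg_left h1 (Nat.cast_nonneg _)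
  push_cast
  nlinarith [h4, h6]

end UPE
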