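import Pool.Agent.Lib.MP_17a322_ntPE.P3
import Pool.Agent.Lib.MP_17a322_ntBB.Z4

/-!
The vertical part.
-/

set_option autoImplicit false

universe u

namespace UPE

open MvPolynomial Height
open Pool.Agent.Lib.MP_17a322_nt.VA

/-- `F` as a polynomial which does not depend on the parameter. -/
private noncomputable def up {K : Type u} [Field K] {N m : ℕ} (F : Pm K N m) : UVD.Fm K N m 0 :=
  rename (Sum.map id Sum.inl) F

private theorem up_inj {N m : ℕ} : Function.Injective
    (Sum.map id Sum.inl : Fin (m + 1) ⊕ Fin (N + 1) → Fin (m + 1) ⊕ (Fin (N + 1) ⊕ Fin (0 + 1))) :=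
  Function.Injective.sumMap Function.injective_id Sum.inl_injective

private theorem up_val {K : Type u} [Field K] {N m : ℕ} (F : Pm K N m) {L : Type u} [Field L]
    [Algebra K L] (x : Fin (N + 1) → L) (y : Fin (m + 1) → L) (t : Fin (0 + 1) → L) :
    UVD.val (up F) x y t = val F x y := by
  unfold UVD.val up val
  rw [aeval_rename]
  refine congrArg (fun g => aeval g F) ?_
  funext z
  rcases z with l | i
  · rfl
  · rfl

private theorem up_sp {K : Type u} [Field K] {N m : ℕ} (F : Pm K N m) (t : Fin (0 + 1) → K) :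
    UVD.sp (up F) t = F := by
  unfold UVD.sp up
  rw [aeval_rename]
  have h1 : (Sum.elim (fun l => X (Sum.inl l)) (Sum.elim (fun i => X (Sum.inr i)) fun k => C (t k)) ∘
      (Sum.map id Sum.inl : Fin (m + 1) ⊕ Fin (N + 1) → Fin (m + 1) ⊕ (Fin (N + 1) ⊕ Fin (0 + 1))) :
      Fin (m + 1) ⊕ Fin (N + 1) → MvPolynomial (Fin (m + 1) ⊕ Fin (N + 1)) K) = X := by
    funext z
    rcases z with l | i
    · rfl
    · rfl
  rw [h1, aeval_X_left_apply]

private theorem up_tri {K : Type u} [Field K] {N m : ℕ} {F : Pm K N m} {a b : ℕ} (hF : Bi F a b) :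
    UVD.Tri (up F) a b 0 := by
  classical
  intro μ hμ
  unfold up at hμ
  rw [support_rename_of_injective up_inj, Finset.mem_image] at hμ
  obtain ⟨ν, hν, rfl⟩ := hμ
  obtain ⟨h1, h2⟩ := hF ν hν
  refine ⟨?_, ?_, ?_⟩
  · rw [← h1]
    refine Finset.sum_congr rfl fun i _ => ?_
    exact Finsupp.mapDomain_apply up_inj ν (Sum.inr i)
  · rw [← h2]
    refine Finset.sum_congr rfl fun l _ => ?_
    exact Finsupp.mapDomain_apply up_inj ν (Sum.inl l)
  · refine Finset.sum_eq_zero fun k _ => ?_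
    refine Finsupp.mapDomain_of_notMem_range _ _ ?_
    rintro ⟨z, hz⟩
    rcases z with l | i
    · exact absurd hz (by simp)
    · exact absurd hz (by simp)

private theorem up_pderiv {K : Type u} [Field K] {N m : ℕ} (F : Pm K N m) (l : Fin (m + 1)) :
    pderiv (Sum.inl l) (up F) = up (pderiv (Sum.inl l) F) := by
  unfold up
  exact pderiv_rename up_inj (Sum.inl l) F

theorem vert {K : Type u} [Field K] [NumberField K] {N m : ℕ} (A : AV K N)
    {κ : ℕ} (q : Fin κ → Pm K N m) (hq : ∀ j, ∃ a b, Bi (q j) a b)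
    (p : Fin (m + 1) → MvPolynomial (Fin (N + 1)) K) (δ : ℕ) (hp : Graph A q p δ)
    {a b τ : ℕ} (e : Fin τ → Pm K N m) (he : ∀ j, Bi (e j) a b) (hE : InRam A q e)
    {a' b' σ : ℕ} (f : Fin σ → Pm K N m) (hf : ∀ j, Bi (f j) a' b') (hD : ∃ j, onG p (f j) ∉ A.I)
    (S : Finset (NumberField.FinitePlace K)) (ε : ℝ) (hε : 0 < ε) :
    ∃ (C : ℝ) (d : ℕ) (H : MvPolynomial (Fin (N + 1)) K), H.IsHomogeneous d ∧ H ∉ A.I ∧
      ∀ (P : A.Pts K) (y : Fin (m + 1) → K), y ≠ 0 → (∀ j, val (q j) (A.x P) y = 0) →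
        aeval (A.x P) H ≠ 0 →
        (∃ j, val (f j) (A.x P) y ≠ 0) ∧ (∃ j, val (e j) (A.x P) y ≠ 0) ∧
        (a * logHeight (A.x P) + b * logHeight y - logHeight fun j => val (e j) (A.x P) y) +
          ((∑ v : NumberField.InfinitePlace K, (v.mult : ℝ) * lamV a' b' f (A.x P) y v.val) +
            ∑ v ∈ S, lamV a' b' f (A.x P) y v.val) ≤ ε * logHeight (A.x P) + C := by
  obtain ⟨C, k, B, hB, h⟩ := UVD.final4 A (fun j => up (q j))
    (fun j => by
      obtain ⟨a, b, hab⟩ := hq j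
      exact ⟨a, b, 0, up_tri hab⟩) (fun j => up (e j)) (fun j => up_tri (he j)) (fun j => up (f j))
    (fun j => up_tri (hf j)) S ε hε
  obtain ⟨t, ht⟩ : ∃ t : Fin (0 + 1) → K, t = fun _ => 1 := ⟨_, rfl⟩
  have ht0 : t ≠ 0 := by
    intro h0
    have h1 := congrFun h0 0
    rw [ht] at h1
    exact one_ne_zero h1
  obtain ⟨h1, h2⟩ := h t ht0
  have hbir : UVD.Bir A (fun j => up (q j)) (fun j => up (e j)) (fun j => up (f j)) t := by
    refine ⟨δ, p, ?_, ?_, ?_⟩
    · refine ⟨hp.hom, hp.ne, fun j => ?_, fun F a b hF hFI => ?_⟩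
      · rw [up_sp]
        exact hp.on j
      · obtain ⟨n, hn⟩ := hp.all F a b hF hFI
        refine ⟨n, fun i l => ?_⟩
        have h3 : (fun j => UVD.sp (up (q j)) t) = q := by
          funext j
          rw [up_sp]
        rw [h3]
        exact hn i l
    · intro L _ _ P y hy hqy hey ρ γ
      have h3 := hE L P y hy (fun j => by
        have h4 := hqy j
        rwa [up_val] at h4) (fun j => by
        have h4 := hey j
        rwa [up_val] at h4) ρ γ
      have h5 : (Matrix.of fun i j => UVD.val (pderiv (Sum.inl (γ j)) (up (q (ρ i)))) (A.x P) y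
          fun k => algebraMap K L (t k)) =
          Matrix.of fun i j => val (pderiv (Sum.inl (γ j)) (q (ρ i))) (A.x P) y := by
        funext i j
        show UVD.val (pderiv (Sum.inl (γ j)) (up (q (ρ i)))) (A.x P) y (fun k => algebraMap K L (t k)) =
          val (pderiv (Sum.inl (γ j)) (q (ρ i))) (A.x P) y
        rw [up_pderiv, up_val]
      rw [h5]
      exact h3
    · obtain ⟨j, hj⟩ := hD
      refine ⟨j, ?_⟩
      rw [up_sp]
      exact hj
  obtain ⟨d, H, hH, hHI, hExc⟩ := h2 (Or.inr hbir)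
  refine ⟨C * (1 + logHeight t), d, H, hH, hHI, fun P y hy hqy hne => ?_⟩
  rcases h1 P y hy (fun j => by rw [up_val]; exact hqy j) with h3 | ⟨h3, h4, h5⟩
  · exact absurd (hExc P h3) hne
  · refine ⟨?_, ?_, ?_⟩
    · obtain ⟨j, hj⟩ := h3
      exact ⟨j, by rwa [up_val] at hj⟩
    · obtain ⟨j, hj⟩ := h4
      exact ⟨j, by rwa [up_val] at hj⟩
    · unfold UVD.hE UVD.prox UVD.lamX at h5
      simp only [up_val, Nat.cast_zero, zero_mul, add_zero] at h5
      unfold lamV
      exact h5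

end UPE
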