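import Pool.Agent.Lib.MP_17a322_ntPE.P4
import Pool.Agent.Lib.MP_17a322_ntPE.P5
import Pool.Agent.Lib.MP_17a322_nt.SL.F9
import Pool.Agent.Lib.MP_17a322_nt.EF.D4
import Pool.Agent.Lib.MP_17a322_ntMW.W6

/-!
The theorem for projective bundles.
-/

set_option autoImplicit false

universe u

namespace UPE

open MvPolynomial Height
open Pool.Agent.Lib.MP_17a322_nt.VA

/-- The height of a space is the height of its equations. -/
theorem hPl_eq {K : Type u} [Field K] [NumberField K] {g n : ℕ} (W : Submodule K (Fin n → K))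
    (G : Fin g → Fin n → K) (hG : LinearIndependent K G)
    (hW : ∀ Z, Z ∈ W ↔ ∀ a, ∑ l, G a l * Z l = 0) :
    hPl W = logHeight fun e : Fin g ↪o Fin n => (Matrix.of fun a b => G a (e b)).det := by
  have hWk : W = LinearMap.ker (Matrix.mulVecLin (Matrix.of G)) := by
    ext Z
    rw [hW, LinearMap.mem_ker]
    constructor
    · intro h
      funext a
      exact h a
    · intro h a
      exact congrFun h a
  have hgr : g + Module.finrank K W = n := by
    have h1 := LinearMap.finrank_range_add_finrank_ker (Matrix.mulVecLin (Matrix.of G))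
    have h2 : LinearIndependent K (Matrix.of G).row := hG
    have h3 := h2.rank_matrix
    rw [Fintype.card_fin] at h3
    rw [Module.finrank_fintype_fun_eq_card, Fintype.card_fin, ← hWk] at h1
    have h4 : Module.finrank K (LinearMap.range (Matrix.mulVecLin (Matrix.of G))) = g := h3
    omega
  have h4 : LinearIndependent K fun a => (Module.finBasis K W a : Fin n → K) :=
    (Module.finBasis K W).linearIndependent.map' W.subtype (Submodule.ker_subtype _)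
  exact (Pool.Agent.Lib.MP_17a322_nt.EF.D_dual' hgr G hG _ h4
    fun a b => (hW _).1 (Module.finBasis K W b).2 a).symm

theorem main {K : Type u} [Field K] [NumberField K] {N m : ℕ} (A : AV K N)
    {κ : ℕ} (q : Fin κ → Pm K N m) (hq : ∀ j, ∃ a b, Bi (q j) a b)
    (p : Fin (m + 1) → MvPolynomial (Fin (N + 1)) K) (δ : ℕ) (hp : Graph A q p δ)
    {a b τ : ℕ} (e : Fin τ → Pm K N m) (he : ∀ j, Bi (e j) a b) (hE : InRam A q e)
    {g n r ag bg : ℕ} (G : Fin g → Fin n → Pm K N m) (hG : ∀ i l, Bi (G i l) ag bg)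
    (hr : Rk A q G r) (hr0 : 0 < r)
    {s η al bl : ℕ} (Λ : Fin s → Fin η → Fin n → Pm K N m) (hΛ : ∀ j k l, Bi (Λ j k l) al bl)
    {σ af bf : ℕ} (f : Fin σ → Pm K N m) (hf : ∀ j, Bi (f j) af bf) (hfA : ∃ j, onG p (f j) ∉ A.I)
    (S : Finset (NumberField.FinitePlace K))
    (Ji : NumberField.InfinitePlace K → Finset (Fin s))
    (Jf : NumberField.FinitePlace K → Finset (Fin s)) (c : Fin s → Fin η)
    (hJi : ∀ v, ∀ T ⊆ Ji v, T.card ≤ r → Ind A q G (fun j => Λ j (c j)) T)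
    (hJf : ∀ v ∈ S, ∀ T ⊆ Jf v, T.card ≤ r → Ind A q G (fun j => Λ j (c j)) T)
    (ε : ℝ) (hε : 0 < ε) :
    ∃ (C : ℝ) (F : MvPolynomial (Fin (N + 1) ⊕ Fin n) K), Exc A q G F ∧
      ∀ (P : A.Pts K) (y : Fin (m + 1) → K) (Z : Fin n → K), y ≠ 0 →
        (∀ j, val (q j) (A.x P) y = 0) → Z ≠ 0 → Z ∈ Fib G (A.x P) y →
        aeval (Sum.elim (A.x P) Z) F ≠ 0 →
        (∀ j, (∃ v, j ∈ Ji v) ∨ (∃ v ∈ S, j ∈ Jf v) →
          ∃ k, ∑ l, val (Λ j k l) (A.x P) y * Z l ≠ 0) ∧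
        (∃ j, val (f j) (A.x P) y ≠ 0) ∧ (∃ j, val (e j) (A.x P) y ≠ 0) ∧
        prox al bl Λ Ji Jf af bf f S (A.x P) y Z + hK a b r e G (A.x P) y Z ≤
          ε * (logHeight Z + logHeight (A.x P)) + C := by
  obtain ⟨g₀, ρ, J, hgr, hR⟩ := exists_rows A hp hG hr
  obtain ⟨l₀, hl₀⟩ := hp.ne
  obtain ⟨C₁, F, hF, hmain⟩ := Pool.Agent.Lib.MP_17a322_nt.SL.SL_final A ⊤ (MWA.MW A) hgr hr0
    (bl * δ + al) (bg * δ + ag) (fun a l => onG p (G (ρ a) l)) (fun a l => onG_hom (hG _ l) hp.hom)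
    (fun j l => onG p (Λ j (c j) l)) (fun j l => onG_hom (hΛ j (c j) l) hp.hom) S Ji Jf
    (fun v T hT hc => ind_sl hp hR (hJi v T hT hc)) (fun v hv T hT hc => ind_sl hp hR (hJf v hv T hT hc))
    (ind_sl (q := q) hp hR (Λ := fun j => Λ j (c j)) (T := ∅) fun _ _ _ _ _ _ _ _ j hj => absurd hj (by simp))
    (ε / 2) (half_pos hε)
  obtain ⟨C₂, d₂, H₂, hH₂, hH₂I, hvert⟩ := vert A q hq p δ hp e he hE f hf hfA S (ε / 2) (half_pos hε)
  obtain ⟨d₀, hd₀⟩ := hR.hom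
  obtain ⟨D₀, hD₀⟩ : ∃ D₀ : MvPolynomial (Fin (N + 1)) K,
    D₀ = (Matrix.of fun a b => onG p (G (ρ a) (J b))).det := ⟨_, rfl⟩
  choose Bi' hBi0 hBi using fun v : NumberField.InfinitePlace K => forms_le (m := m) (p := p) hp.hom v.val
  choose Bf' hBf0 hBf using fun v : NumberField.FinitePlace K => forms_le (m := m) (p := p) hp.hom v.val
  refine ⟨C₁ + C₂ + ((∑ v : NumberField.InfinitePlace K, (v.mult : ℝ) * ∑ _j ∈ Ji v, (bl : ℝ) * Bi' v) +
    ∑ v ∈ S, ∑ _j ∈ Jf v, (bl : ℝ) * Bf' v), F * rename Sum.inl (H₂ * p l₀ * D₀), ?_, ?_⟩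
  · refine exc_sl hp hG hR hF ((hH₂.mul (hp.hom l₀)).mul (hD₀ ▸ hd₀)) ?_
    have hpr : A.I.IsPrime := Z_prime A
    intro h0
    rcases hpr.mem_or_mem h0 with h1 | h1
    · rcases hpr.mem_or_mem h1 with h2 | h2
      · exact hH₂I h2
      · exact hl₀ h2
    · rw [hD₀] at h1
      exact hR.notMem h1
  · intro P y Z hy hqy hZ hZF hne
    rw [map_mul, aeval_rename, Sum.elim_comp_inl, map_mul, map_mul] at hne
    obtain ⟨hne1, hne2⟩ := mul_ne_zero_iff.1 hne
    obtain ⟨hne3, hne4⟩ := mul_ne_zero_iff.1 hne2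
    obtain ⟨hne5, hne6⟩ := mul_ne_zero_iff.1 hne3
    rw [hD₀] at hne4
    obtain ⟨t, ht, hyt⟩ := pt_graph hp P y hy hqy l₀ hne6
    have hZ' : ∀ a, ∑ l, aeval (A.x P) (onG p (G (ρ a) l)) * Z l = 0 := by
      rw [hyt] at hZF
      exact (hR.mem hG P hne4 ht Z).1 hZF
    obtain ⟨h1, h2⟩ := hmain P (AddSubgroup.mem_top P) Z hZ hZ' hne1
    obtain ⟨h3, h4, h5⟩ := hvert P y hy hqy hne5
    have h6 : hPl (Fib G (A.x P) y) =
        Pool.Agent.Lib.MP_17a322_nt.SL.hE A (fun a l => onG p (G (ρ a) l)) P := by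
      rw [hyt]
      exact hPl_eq _ _ (Rows.li P hne4) fun Z => hR.mem hG P hne4 ht Z
    have h7 : ∀ (v : AbsoluteValue K ℝ) (B : ℝ) (_ : ∀ x : Fin (N + 1) → K, ∀ l₀,
        aeval x (p l₀) ≠ 0 → x ≠ 0 →
        Real.log (⨆ l, v (aeval x (p l))) ≤ B + δ * Real.log (⨆ i, v (x i))) (j : Fin s)
        (_ : (∃ v, j ∈ Ji v) ∨ (∃ v ∈ S, j ∈ Jf v)),
        (∑ l, val (Λ j (c j) l) (A.x P) y * Z l) ≠ 0 ∧
        lamH al bl (Λ j) (A.x P) y Z v ≤ Pool.Agent.Lib.MP_17a322_nt.SL.lam A v (bl * δ + al)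
          (fun l => onG p (Λ j (c j) l)) P Z + bl * B := by
      intro v B hB j hj
      rw [hyt]
      exact lamH_le A v hB (c j) (hΛ j (c j)) P l₀ hne6 t ht Z (h1 j hj)
    refine ⟨fun j hj => ?_, h3, h4, ?_⟩
    · obtain ⟨v⟩ : Nonempty (NumberField.InfinitePlace K) := inferInstance
      exact ⟨c j, (h7 v.val _ (hBi v) j hj).1⟩
    · have h8 : ∑ v : NumberField.InfinitePlace K, (v.mult : ℝ) *
          ((∑ j ∈ Ji v, lamH al bl (Λ j) (A.x P) y Z v.val) + lamV af bf f (A.x P) y v.val) ≤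
          (∑ v : NumberField.InfinitePlace K, (v.mult : ℝ) * ∑ j ∈ Ji v,
            Pool.Agent.Lib.MP_17a322_nt.SL.lam A v.val (bl * δ + al)
              (fun l => onG p (Λ j (c j) l)) P Z) +
          (∑ v : NumberField.InfinitePlace K, (v.mult : ℝ) * ∑ _j ∈ Ji v, (bl : ℝ) * Bi' v) +
          ∑ v : NumberField.InfinitePlace K, (v.mult : ℝ) * lamV af bf f (A.x P) y v.val := by
        rw [← Finset.sum_add_distrib, ← Finset.sum_add_distrib]
        refine Finset.sum_le_sum fun v _ => ?_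
        rw [← mul_add, ← mul_add, ← Finset.sum_add_distrib]
        refine mul_le_mul_of_nonneg_left ?_ (Nat.cast_nonneg _)
        exact add_le_add_left (Finset.sum_le_sum fun j hj => (h7 v.val _ (hBi v) j (Or.inl ⟨v, hj⟩)).2) _
      have h9 : ∑ v ∈ S, ((∑ j ∈ Jf v, lamH al bl (Λ j) (A.x P) y Z v.val) +
          lamV af bf f (A.x P) y v.val) ≤
          (∑ v ∈ S, ∑ j ∈ Jf v, Pool.Agent.Lib.MP_17a322_nt.SL.lam A v.val (bl * δ + al)
              (fun l => onG p (Λ j (c j) l)) P Z) +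
          (∑ v ∈ S, ∑ _j ∈ Jf v, (bl : ℝ) * Bf' v) +
          ∑ v ∈ S, lamV af bf f (A.x P) y v.val := by
        rw [← Finset.sum_add_distrib, ← Finset.sum_add_distrib]
        refine Finset.sum_le_sum fun v hv => ?_
        rw [← Finset.sum_add_distrib]
        exact add_le_add_left (Finset.sum_le_sum fun j hj =>
          (h7 v.val _ (hBf v) j (Or.inr ⟨v, hv, hj⟩)).2) _
      unfold prox hK
      rw [h6]
      have h10 : 0 ≤ logHeight Z := logHeight_nonneg _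
      have h11 : 0 ≤ ε * logHeight Z := mul_nonneg hε.le h10
      linarith

end UPE
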